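import Pool.Agent.Q301.TM.Defs

/-!
# Ramsey statements for sets in a model of set theory: definitions

In a structure `M` for the language of set theory, `Mem z a` says that `z` is an element of `a` in
the sense of `M`, and `El a` is the type of the elements of `a`. All subsets, functions and
orderings below are required to be elements of the model (`IsMap c` says that the function `c` is
in the model). `IsPair p a b` says that `p` is the set `{a, b}` and `IsOrdPair p a b` that `p` is
the ordered pair `(a, b)`. `IsNat n` says that `n` is a natural number of the model, and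
`IsFinite` is finiteness in the model (both from `Pool.Agent.H310R3.Cards`).
-/

namespace Pool.Agent.Q301.AM

open FirstOrder FirstOrder.Language
open Pool.Agent.Helper672.Plain (LSet Mem IsPair IsOrdPair El)
open Pool.Agent.H310Cards (IsNat IsFinite)
open Pool.Agent.Q301.TM (IsMap)

universe u

variable {M : Type u} [LSet.Structure M]

/-- `P` is the set of the subsets of `X` with exactly two elements. -/
def IsPairSet (P X : M) : Prop :=
  ∀ z, Mem z P ↔ ∃ a b, Mem a X ∧ Mem b X ∧ a ≠ b ∧ IsPair z a b

/-- `RT²_n(X)`: for every map `c` from the set `P` of the two-element subsets of `X` to the natural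
number `n = {0, …, n - 1}` there are an infinite subset `Y` of `X` and a colour `k` such that
`c p = k` for every two-element subset `p` of `Y`. -/
def RT2 (n X : M) : Prop :=
  ∀ (P : M) (c : El P → El n), IsPairSet P X → IsMap c →
    ∃ Y, (∀ z, Mem z Y → Mem z X) ∧ ¬ IsFinite Y ∧
      ∃ k, ∀ p : El P, (∀ z, Mem z p.1 → Mem z Y) → c p = k

/-- `a` is before `b` in the relation `R`, a set of ordered pairs. -/
def Lt (R a b : M) : Prop := ∃ p, IsOrdPair p a b ∧ Mem p R

/-- `R` is a (strict) linear order on `Y`. -/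
structure IsLinOrd (R Y : M) : Prop where
  irrefl : ∀ a, Mem a Y → ¬ Lt R a a
  trans : ∀ a b c, Mem a Y → Mem b Y → Mem c Y → Lt R a b → Lt R b c → Lt R a c
  total : ∀ a b, Mem a Y → Mem b Y → a ≠ b → Lt R a b ∨ Lt R b a

/-- For all `a₁ < b₁` and `a₂ < b₂` in `Y`, the map `f` takes the same value at `{a₁, b₁}` and at
`{a₂, b₂}` if and only if `E a₁ b₁ a₂ b₂`. -/
def CanonBy {P C : M} (f : El P → El C) (R Y : M) (E : M → M → M → M → Prop) : Prop :=
  ∀ a₁ b₁ a₂ b₂, Mem a₁ Y → Mem b₁ Y → Mem a₂ Y → Mem b₂ Y → Lt R a₁ b₁ → Lt R a₂ b₂ →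
    ∀ p q : El P, IsPair p.1 a₁ b₁ → IsPair q.1 a₂ b₂ → (f p = f q ↔ E a₁ b₁ a₂ b₂)

/-- `f` is canonical on `Y` with the linear order `R`. -/
def IsCanonical {P C : M} (f : El P → El C) (R Y : M) : Prop :=
  CanonBy f R Y (fun _ _ _ _ => True) ∨ CanonBy f R Y (fun a₁ _ a₂ _ => a₁ = a₂) ∨
    CanonBy f R Y (fun _ b₁ _ b₂ => b₁ = b₂) ∨
    CanonBy f R Y (fun a₁ b₁ a₂ b₂ => a₁ = a₂ ∧ b₁ = b₂)

/-- `CRT(X)`: for every map `f` from the set `P` of the two-element subsets of `X` to a set `C`
there are an infinite subset `Y` of `X` and a linear order `R` on `Y` such that `f` is canonical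
on `Y` with `R`. -/
def CRT (X : M) : Prop :=
  ∀ (P C : M) (f : El P → El C), IsPairSet P X → IsMap f →
    ∃ Y R, (∀ z, Mem z Y → Mem z X) ∧ ¬ IsFinite Y ∧ IsLinOrd R Y ∧ IsCanonical f R Y

end Pool.Agent.Q301.AM
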