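import Pool.Agent.H310R3.PM5
import Pool.Agent.H310R3.Met
import Pool.Agent.Q301.TM.Base
import Pool.Agent.H635R2.Ext
import Pool.Agent.Q301.AM.Defs

/-!
# The model with an amorphous set of atoms
-/

set_option maxHeartbeats 1000000
set_option linter.all false
set_option synthInstance.maxSize 2000

namespace Pool.Agent.Q301.AM

open FirstOrder FirstOrder.Language
open Pool.Agent.Helper672.ZFA
open Pool.Agent.Helper672.ZFA.H310M
open Pool.Agent.Helper672.ZFA.H635 (IPerm SymSys IG WFI FEq FMem tw Good feq_of_map feq_iff IsGen
  nd nd_eq mem_nd mem_nd_nd exists_mk mk_eq_nd EqFam NN nn_ext CollL nn_zf mem_NN toL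
  plainN_ordPair plainN_graph plainN_opGraph exists_countable_sub isModel_of_zermelo nn_zermelo
  coll_of_zf)
open Pool.Agent.Helper672.Plain (LSet)
open Pool.Agent.H635Amen (ZF)
open Pool.Agent.H310Cards (IsOmega IsFinite IsFun App IsInj IsNat IsBij)
open Pool.Agent.H310 (FinP finP_iff finP_le finP_lt exists_BN mem_nat nat_iff appN finite_of_finP
  mem_cp extN exists_code instPEl not_finP_nat)
open Pool.Agent.Q301.TM (IsMap)

universe u

section

variable {M : Type u} [L.Structure M] [hM : IsModel M] {X : Type u} [ITy M X]

/-- The transposition. -/
theorem exists_swap (x y : X) : ∃ g : IPerm M X, g.1.1 x = y ∧ g.1.1 y = x ∧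
    ∀ z, z ≠ x → z ≠ y → g.1.1 z = z := by
  classical
  have hf : IntF M (fun z : X => if z = x then y else if z = y then x else z) := by (repeat' (first | with_reducible exact IntF.id | with_reducible exact IntF.fst' | with_reducible exact IntF.snd' | with_reducible exact IntF.const _ | with_reducible exact Int.const _ | assumption | with_reducible apply Int.and | with_reducible apply Int.or | with_reducible apply Int.not | with_reducible apply Int.imp | with_reducible apply Int.iff | with_reducible apply Int.ne | with_reducible apply Int.eq | with_reducible apply Int.mem | with_reducible apply Int.subset | with_reducible apply Int.ltN | with_reducible apply Int.leN | with_reducible_and_instances apply Int.le | with_reducible_and_instances apply Int.lt | with_reducible apply Int.all | with_reducible apply Int.ex | with_reducible apply IntF.fst | with_reducible apply IntF.snd | with_reducible apply IntF.app | with_reducible apply IntF.inl | with_reducible apply IntF.inr | with_reducible_and_instances apply IntF.mul | with_reducible_and_instances apply IntF.inv | with_reducible_and_instances apply IntF.add | with_reducible_and_instances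 apply IntF.sub | with_reducible_and_instances apply IntF.neg | with_reducible_and_instances apply IntF.smul | with_reducible apply Int.fin | with_reducible apply IntF.sep | with_reducible apply IntF.lam | with_reducible apply IntF.insert | with_reducible apply IntF.singleton | with_reducible apply IntF.union | with_reducible apply IntF.iimage | with_reducible apply IntF.ite | with_reducible apply IntF.the | with_reducible apply IntF.irec | with_reducible apply IntF.succ | with_reducible apply IntF.val | with_reducible apply IntF.mk | (with_reducible refine Int.comp ?_ ?_; assumption) | (with_reducible refine Int.comp₂ ?_ ?_ ?_; assumption) | (with_reducible refine Int.comp₃ ?_ ?_ ?_ ?_; assumption) | (with_reducible refine Int.comp₄ ?_ ?_ ?_ ?_ ?_; assumption) | (with_reducible refine IntF.comp ?_ ?_; assumption) | (with_reducible refine IntF.comp₂ ?_ ?_ ?_; assumption) | (with_reducible refine IntF.comp₃ ?_ ?_ ?_ ?_; assumption) | with_reducible apply IntF.pair))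
  have hinv : ∀ z : X, (if (if z = x then y else if z = y then x else z) = x then y else
      if (if z = x then y else if z = y then x else z) = y then x else
        (if z = x then y else if z = y then x else z)) = z := by
    intro z
    by_cases h1 : z = x
    · subst h1
      by_cases h2 : y = z
      · simp [h2]
      · simp [h2]
    · by_cases h2 : z = y
      · subst h2
        simp [h1]
      · simp [h1, h2]
  refine ⟨⟨(⟨_, hf⟩, ⟨_, hf⟩), fun z => hinv z, fun z => hinv z⟩, ?_, ?_, fun z h1 h2 => ?_⟩
  · change (if x = x then y else if x = y then x else x) = y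
    rw [if_pos rfl]
  · change (if y = x then y else if y = y then x else y) = x
    by_cases h : y = x
    · rw [if_pos h, h]
    · rw [if_neg h, if_pos rfl]
  · change (if z = x then y else if z = y then x else z) = z
    rw [if_neg h1, if_neg h2]

variable (M X) in
/-- The group of all permutations. -/
noncomputable def SYM : PGr M X where
  H := ⊤
  int := by
    have : Int M (fun _ : IPerm M X => True) := Int.const _
    exact this

theorem inj_ap (g : IPerm M X) {x y : X} (h : g.1.1 x = g.1.1 y) : x = y := by
  have h1 : g.1.2 (g.1.1 x) = g.1.2 (g.1.1 y) := congrArg _ h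
  rwa [g.2.2, g.2.2] at h1

/-- Two elements outside of a finite set are moved to two others. -/
theorem exists_mv {E : FS M X} {x₀ y₀ x y : X} (hx₀ : ¬ x₀ ∈ E.1) (hy₀ : ¬ y₀ ∈ E.1)
    (hx : ¬ x ∈ E.1) (hy : ¬ y ∈ E.1) (h₀ : x₀ ≠ y₀) (h : x ≠ y) :
    ∃ g : IPerm M X, (∀ z, z ∈ E.1 → g.1.1 z = z) ∧ g.1.1 x₀ = x ∧ g.1.1 y₀ = y := by
  obtain ⟨g, h1, h2, h3⟩ := exists_swap (M := M) x₀ x
  obtain ⟨g', h1', h2', h3'⟩ := exists_swap (M := M) (g.1.1 y₀) y
  have hne : g.1.1 y₀ ≠ x := by
    intro h4
    have h5 : g.1.1 y₀ = g.1.1 x₀ := h4.trans h1.symm
    exact h₀ (inj_ap g h5).symm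
  have hny : ¬ g.1.1 y₀ ∈ E.1 := by
    by_cases h4 : y₀ = x
    · rw [h4, h2]
      exact hx₀
    · rw [h3 y₀ (Ne.symm h₀) h4]
      exact hy₀
  refine ⟨g' * g, fun z hz => ?_, ?_, ?_⟩
  · rw [IPerm.mul_apply, h3 z (fun h4 => hx₀ (h4 ▸ hz)) (fun h4 => hx (h4 ▸ hz)),
      h3' z (fun h4 => hny (h4 ▸ hz)) (fun h4 => hy (h4 ▸ hz))]
  · rw [IPerm.mul_apply, h1, h3' x (Ne.symm hne) h]
  · rw [IPerm.mul_apply, h1']

/-- There are elements outside of a finite set. -/
theorem exists_out (E : FS M (INat M)) : ∃ x y : INat M, ¬ x ∈ E.1 ∧ ¬ y ∈ E.1 ∧ x ≠ y := by
  have h1 : FinP M (fun x : INat M => x ∈ E.1) := ⟨E.1, E.2, fun a ha => ha⟩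
  obtain ⟨n, hn⟩ := h1.bound
  refine ⟨n.succ, n.succ.succ, fun h2 => ?_, fun h2 => ?_, fun h2 => ?_⟩
  · exact absurd (INat.lt_succ_self n) (not_lt.2 (hn _ h2))
  · exact absurd ((INat.lt_succ_self n).trans (INat.lt_succ_self n.succ)) (not_lt.2 (hn _ h2))
  · exact absurd (INat.lt_succ_self n.succ) (by rw [← h2]; exact lt_irrefl _)

/-- The union of two finite sets. -/
theorem exists_un (E E' : FS M X) : ∃ F : FS M X, ∀ x, x ∈ F.1 ↔ x ∈ E.1 ∨ x ∈ E'.1 :=
  ⟨⟨E.1 ∪ E'.1, E.2.union E'.2⟩, fun x => mem_union⟩

end

section ext

variable {M : Type u} [L.Structure M] [hM : IsModel M] {G : Set (Co M (INat M))} (hG : IsGen M G)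
  (hC : CollL M)


theorem mem_upN {w x y : (NN (SS (SYM M (INat M))) hG)} : Helper672.Plain.Mem w (up x y) ↔ w = x ∨ w = y :=
  (mem_NN hG).symm.trans mem_up

theorem ordN {q x y : (NN (SS (SYM M (INat M))) hG)} : Helper672.Plain.IsOrdPair q x y ↔ q = op x y := by
  letI := toL (NN (SS (SYM M (INat M))) hG)
  exact plainN_ordPair (N := (NN (SS (SYM M (INat M))) hG))

theorem appNN {f x y : (NN (SS (SYM M (INat M))) hG)} : App f x y ↔ Helper672.Plain.Mem (op x y) f := by
  constructor
  · rintro ⟨q, h1, h2⟩
    rwa [ordN hG |>.1 h1] at h2
  · exact fun h => ⟨_, (ordN hG).2 rfl, h⟩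

/-- Unordered pairs. -/
theorem ef_up {ε : Type u} [ITy M ε] {a : IPerm M (INat M) → ε → ε}
    (ha : ∀ (g : IPerm M (INat M)) b, a g⁻¹ (a g b) = b) {f f' : ε → (NN (SS (SYM M (INat M))) hG)}
    (hf : EF (SYM M (INat M)) hG a f) (hf' : EF (SYM M (INat M)) hG a f') :
    EF (SYM M (INat M)) hG a (fun c => up (f c) (f' c)) :=
  EqFam.up (fun π b => ha π.1.1 b) hf hf'

/-- Ordered pairs of atoms. -/
theorem ef_pp : EF (SYM M (INat M)) hG
    (fun (g : IPerm M (INat M)) (q : INat M × INat M) => (g.1.1 q.1, g.1.1 q.2))
    (fun q => op ((cc (SYM M (INat M)) hG) q.1) ((cc (SYM M (INat M)) hG) q.2)) := by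
  refine EF.op hG (fun g b => Prod.ext (g.2.2 _) (g.2.2 _)) ?_ ?_
  · exact EF.comp hG (ef_cc hG) (φ := fun q : INat M × INat M => q.1) (by (repeat' (first | with_reducible exact IntF.id | with_reducible exact IntF.fst' | with_reducible exact IntF.snd' | with_reducible exact IntF.const _ | with_reducible exact Int.const _ | assumption | with_reducible apply Int.and | with_reducible apply Int.or | with_reducible apply Int.not | with_reducible apply Int.imp | with_reducible apply Int.iff | with_reducible apply Int.ne | with_reducible apply Int.eq | with_reducible apply Int.mem | with_reducible apply Int.subset | with_reducible apply Int.ltN | with_reducible apply Int.leN | with_reducible_and_instances apply Int.le | with_reducible_and_instances apply Int.lt | with_reducible apply Int.all | with_reducible apply Int.ex | with_reducible apply IntF.fst | with_reducible apply IntF.snd | with_reducible apply IntF.app | with_reducible apply IntF.inl | with_reducible apply IntF.inr | with_reducible_and_instances apply IntF.mul | with_reducible_and_instances apply IntF.inv | with_reducible_and_instances apply IntF.add | with_reducible_and_instances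 apply IntF.sub | with_reducible_and_instances apply IntF.neg | with_reducible_and_instances apply IntF.smul | with_reducible apply Int.fin | with_reducible apply IntF.sep | with_reducible apply IntF.lam | with_reducible apply IntF.insert | with_reducible apply IntF.singleton | with_reducible apply IntF.union | with_reducible apply IntF.iimage | with_reducible apply IntF.ite | with_reducible apply IntF.the | with_reducible apply IntF.irec | with_reducible apply IntF.succ | with_reducible apply IntF.val | with_reducible apply IntF.mk | (with_reducible refine Int.comp ?_ ?_; assumption) | (with_reducible refine Int.comp₂ ?_ ?_ ?_; assumption) | (with_reducible refine Int.comp₃ ?_ ?_ ?_ ?_; assumption) | (with_reducible refine Int.comp₄ ?_ ?_ ?_ ?_ ?_; assumption) | (with_reducible refine IntF.comp ?_ ?_; assumption) | (with_reducible refine IntF.comp₂ ?_ ?_ ?_; assumption) | (with_reducible refine IntF.comp₃ ?_ ?_ ?_ ?_; assumption) | with_reducible apply IntF.pair))) fun _ _ => rfl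
  · exact EF.comp hG (ef_cc hG) (φ := fun q : INat M × INat M => q.2) (by (repeat' (first | with_reducible exact IntF.id | with_reducible exact IntF.fst' | with_reducible exact IntF.snd' | with_reducible exact IntF.const _ | with_reducible exact Int.const _ | assumption | with_reducible apply Int.and | with_reducible apply Int.or | with_reducible apply Int.not | with_reducible apply Int.imp | with_reducible apply Int.iff | with_reducible apply Int.ne | with_reducible apply Int.eq | with_reducible apply Int.mem | with_reducible apply Int.subset | with_reducible apply Int.ltN | with_reducible apply Int.leN | with_reducible_and_instances apply Int.le | with_reducible_and_instances apply Int.lt | with_reducible apply Int.all | with_reducible apply Int.ex | with_reducible apply IntF.fst | with_reducible apply IntF.snd | with_reducible apply IntF.app | with_reducible apply IntF.inl | with_reducible apply IntF.inr | with_reducible_and_instances apply IntF.mul | with_reducible_and_instances apply IntF.inv | with_reducible_and_instances apply IntF.add | with_reducible_and_instances apply IntF.sub | with_reducible_and_instances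 apply IntF.neg | with_reducible_and_instances apply IntF.smul | with_reducible apply Int.fin | with_reducible apply IntF.sep | with_reducible apply IntF.lam | with_reducible apply IntF.insert | with_reducible apply IntF.singleton | with_reducible apply IntF.union | with_reducible apply IntF.iimage | with_reducible apply IntF.ite | with_reducible apply IntF.the | with_reducible apply IntF.irec | with_reducible apply IntF.succ | with_reducible apply IntF.val | with_reducible apply IntF.mk | (with_reducible refine Int.comp ?_ ?_; assumption) | (with_reducible refine Int.comp₂ ?_ ?_ ?_; assumption) | (with_reducible refine Int.comp₃ ?_ ?_ ?_ ?_; assumption) | (with_reducible refine Int.comp₄ ?_ ?_ ?_ ?_ ?_; assumption) | (with_reducible refine IntF.comp ?_ ?_; assumption) | (with_reducible refine IntF.comp₂ ?_ ?_ ?_; assumption) | (with_reducible refine IntF.comp₃ ?_ ?_ ?_ ?_; assumption) | with_reducible apply IntF.pair))) fun _ _ => rfl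

/-- Atoms with numbers. -/
theorem ef_pn : EF (SYM M (INat M)) hG
    (fun (g : IPerm M (INat M)) (q : INat M × INat M) => (g.1.1 q.1, q.2))
    (fun q => op ((cc (SYM M (INat M)) hG) q.1) ((nn (SYM M (INat M)) hG) q.2)) := by
  refine EF.op hG (fun g b => Prod.ext (g.2.2 _) rfl) ?_ ?_
  · exact EF.comp hG (ef_cc hG) (φ := fun q : INat M × INat M => q.1) (by (repeat' (first | with_reducible exact IntF.id | with_reducible exact IntF.fst' | with_reducible exact IntF.snd' | with_reducible exact IntF.const _ | with_reducible exact Int.const _ | assumption | with_reducible apply Int.and | with_reducible apply Int.or | with_reducible apply Int.not | with_reducible apply Int.imp | with_reducible apply Int.iff | with_reducible apply Int.ne | with_reducible apply Int.eq | with_reducible apply Int.mem | with_reducible apply Int.subset | with_reducible apply Int.ltN | with_reducible apply Int.leN | with_reducible_and_instances apply Int.le | with_reducible_and_instances apply Int.lt | with_reducible apply Int.all | with_reducible apply Int.ex | with_reducible apply IntF.fst | with_reducible apply IntF.snd | with_reducible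 apply IntF.app | with_reducible apply IntF.inl | with_reducible apply IntF.inr | with_reducible_and_instances apply IntF.mul | with_reducible_and_instances apply IntF.inv | with_reducible_and_instances apply IntF.add | with_reducible_and_instances apply IntF.sub | with_reducible_and_instances apply IntF.neg | with_reducible_and_instances apply IntF.smul | with_reducible apply Int.fin | with_reducible apply IntF.sep | with_reducible apply IntF.lam | with_reducible apply IntF.insert | with_reducible apply IntF.singleton | with_reducible apply IntF.union | with_reducible apply IntF.iimage | with_reducible apply IntF.ite | with_reducible apply IntF.the | with_reducible apply IntF.irec | with_reducible apply IntF.succ | with_reducible apply IntF.val | with_reducible apply IntF.mk | (with_reducible refine Int.comp ?_ ?_; assumption) | (with_reducible refine Int.comp₂ ?_ ?_ ?_; assumption) | (with_reducible refine Int.comp₃ ?_ ?_ ?_ ?_; assumption) | (with_reducible refine Int.comp₄ ?_ ?_ ?_ ?_ ?_; assumption) | (with_reducible refine IntF.comp ?_ ?_; assumption) | (with_reducible refine IntF.comp₂ ?_ ?_ ?_; assumption)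 | (with_reducible refine IntF.comp₃ ?_ ?_ ?_ ?_; assumption) | with_reducible apply IntF.pair))) fun _ _ => rfl
  · exact EF.comp hG (ef_nn hG) (φ := fun q : INat M × INat M => q.2) (by (repeat' (first | with_reducible exact IntF.id | with_reducible exact IntF.fst' | with_reducible exact IntF.snd' | with_reducible exact IntF.const _ | with_reducible exact Int.const _ | assumption | with_reducible apply Int.and | with_reducible apply Int.or | with_reducible apply Int.not | with_reducible apply Int.imp | with_reducible apply Int.iff | with_reducible apply Int.ne | with_reducible apply Int.eq | with_reducible apply Int.mem | with_reducible apply Int.subset | with_reducible apply Int.ltN | with_reducible apply Int.leN | with_reducible_and_instances apply Int.le | with_reducible_and_instances apply Int.lt | with_reducible apply Int.all | with_reducible apply Int.ex | with_reducible apply IntF.fst | with_reducible apply IntF.snd | with_reducible apply IntF.app | with_reducible apply IntF.inl | with_reducible apply IntF.inr | with_reducible_and_instances apply IntF.mul | with_reducible_and_instances apply IntF.inv | with_reducible_and_instances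 apply IntF.add | with_reducible_and_instances apply IntF.sub | with_reducible_and_instances apply IntF.neg | with_reducible_and_instances apply IntF.smul | with_reducible apply Int.fin | with_reducible apply IntF.sep | with_reducible apply IntF.lam | with_reducible apply IntF.insert | with_reducible apply IntF.singleton | with_reducible apply IntF.union | with_reducible apply IntF.iimage | with_reducible apply IntF.ite | with_reducible apply IntF.the | with_reducible apply IntF.irec | with_reducible apply IntF.succ | with_reducible apply IntF.val | with_reducible apply IntF.mk | (with_reducible refine Int.comp ?_ ?_; assumption) | (with_reducible refine Int.comp₂ ?_ ?_ ?_; assumption) | (with_reducible refine Int.comp₃ ?_ ?_ ?_ ?_; assumption) | (with_reducible refine Int.comp₄ ?_ ?_ ?_ ?_ ?_; assumption) | (with_reducible refine IntF.comp ?_ ?_; assumption) | (with_reducible refine IntF.comp₂ ?_ ?_ ?_; assumption) | (with_reducible refine IntF.comp₃ ?_ ?_ ?_ ?_; assumption) | with_reducible apply IntF.pair))) fun _ _ => rfl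

/-- Unordered pairs of atoms with numbers. -/
theorem ef_ppn : EF (SYM M (INat M)) hG
    (fun (g : IPerm M (INat M)) (q : (INat M × INat M) × INat M) => ((g.1.1 q.1.1, g.1.1 q.1.2), q.2))
    (fun q => op (up ((cc (SYM M (INat M)) hG) q.1.1) ((cc (SYM M (INat M)) hG) q.1.2)) ((nn (SYM M (INat M)) hG) q.2)) := by
  refine EF.op hG (fun g b => Prod.ext (Prod.ext (g.2.2 _) (g.2.2 _)) rfl) ?_ ?_
  · refine ef_up hG (fun g b => Prod.ext (Prod.ext (g.2.2 _) (g.2.2 _)) rfl) ?_ ?_
    · exact EF.comp hG (ef_cc hG) (φ := fun q : (INat M × INat M) × INat M => q.1.1) (by (repeat' (first | with_reducible exact IntF.id | with_reducible exact IntF.fst' | with_reducible exact IntF.snd' | with_reducible exact IntF.const _ | with_reducible exact Int.const _ | assumption | with_reducible apply Int.and | with_reducible apply Int.or | with_reducible apply Int.not | with_reducible apply Int.imp | with_reducible apply Int.iff | with_reducible apply Int.ne | with_reducible apply Int.eq | with_reducible apply Int.mem | with_reducible apply Int.subset | with_reducible apply Int.ltN | with_reducible apply Int.leN | with_reducible_and_instances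 apply Int.le | with_reducible_and_instances apply Int.lt | with_reducible apply Int.all | with_reducible apply Int.ex | with_reducible apply IntF.fst | with_reducible apply IntF.snd | with_reducible apply IntF.app | with_reducible apply IntF.inl | with_reducible apply IntF.inr | with_reducible_and_instances apply IntF.mul | with_reducible_and_instances apply IntF.inv | with_reducible_and_instances apply IntF.add | with_reducible_and_instances apply IntF.sub | with_reducible_and_instances apply IntF.neg | with_reducible_and_instances apply IntF.smul | with_reducible apply Int.fin | with_reducible apply IntF.sep | with_reducible apply IntF.lam | with_reducible apply IntF.insert | with_reducible apply IntF.singleton | with_reducible apply IntF.union | with_reducible apply IntF.iimage | with_reducible apply IntF.ite | with_reducible apply IntF.the | with_reducible apply IntF.irec | with_reducible apply IntF.succ | with_reducible apply IntF.val | with_reducible apply IntF.mk | (with_reducible refine Int.comp ?_ ?_; assumption) | (with_reducible refine Int.comp₂ ?_ ?_ ?_; assumption) | (with_reducible refine Int.comp₃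 ?_ ?_ ?_ ?_; assumption) | (with_reducible refine Int.comp₄ ?_ ?_ ?_ ?_ ?_; assumption) | (with_reducible refine IntF.comp ?_ ?_; assumption) | (with_reducible refine IntF.comp₂ ?_ ?_ ?_; assumption) | (with_reducible refine IntF.comp₃ ?_ ?_ ?_ ?_; assumption) | with_reducible apply IntF.pair)))
        fun _ _ => rfl
    · exact EF.comp hG (ef_cc hG) (φ := fun q : (INat M × INat M) × INat M => q.1.2) (by (repeat' (first | with_reducible exact IntF.id | with_reducible exact IntF.fst' | with_reducible exact IntF.snd' | with_reducible exact IntF.const _ | with_reducible exact Int.const _ | assumption | with_reducible apply Int.and | with_reducible apply Int.or | with_reducible apply Int.not | with_reducible apply Int.imp | with_reducible apply Int.iff | with_reducible apply Int.ne | with_reducible apply Int.eq | with_reducible apply Int.mem | with_reducible apply Int.subset | with_reducible apply Int.ltN | with_reducible apply Int.leN | with_reducible_and_instances apply Int.le | with_reducible_and_instances apply Int.lt | with_reducible apply Int.all | with_reducible apply Int.ex | with_reducible apply IntF.fst |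 with_reducible apply IntF.snd | with_reducible apply IntF.app | with_reducible apply IntF.inl | with_reducible apply IntF.inr | with_reducible_and_instances apply IntF.mul | with_reducible_and_instances apply IntF.inv | with_reducible_and_instances apply IntF.add | with_reducible_and_instances apply IntF.sub | with_reducible_and_instances apply IntF.neg | with_reducible_and_instances apply IntF.smul | with_reducible apply Int.fin | with_reducible apply IntF.sep | with_reducible apply IntF.lam | with_reducible apply IntF.insert | with_reducible apply IntF.singleton | with_reducible apply IntF.union | with_reducible apply IntF.iimage | with_reducible apply IntF.ite | with_reducible apply IntF.the | with_reducible apply IntF.irec | with_reducible apply IntF.succ | with_reducible apply IntF.val | with_reducible apply IntF.mk | (with_reducible refine Int.comp ?_ ?_; assumption) | (with_reducible refine Int.comp₂ ?_ ?_ ?_; assumption) | (with_reducible refine Int.comp₃ ?_ ?_ ?_ ?_; assumption) | (with_reducible refine Int.comp₄ ?_ ?_ ?_ ?_ ?_; assumption) | (with_reducible refine IntF.comp ?_ ?_; assumption) | (with_reducible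 refine IntF.comp₂ ?_ ?_ ?_; assumption) | (with_reducible refine IntF.comp₃ ?_ ?_ ?_ ?_; assumption) | with_reducible apply IntF.pair)))
        fun _ _ => rfl
  · exact EF.comp hG (ef_nn hG) (φ := fun q : (INat M × INat M) × INat M => q.2) (by (repeat' (first | with_reducible exact IntF.id | with_reducible exact IntF.fst' | with_reducible exact IntF.snd' | with_reducible exact IntF.const _ | with_reducible exact Int.const _ | assumption | with_reducible apply Int.and | with_reducible apply Int.or | with_reducible apply Int.not | with_reducible apply Int.imp | with_reducible apply Int.iff | with_reducible apply Int.ne | with_reducible apply Int.eq | with_reducible apply Int.mem | with_reducible apply Int.subset | with_reducible apply Int.ltN | with_reducible apply Int.leN | with_reducible_and_instances apply Int.le | with_reducible_and_instances apply Int.lt | with_reducible apply Int.all | with_reducible apply Int.ex | with_reducible apply IntF.fst | with_reducible apply IntF.snd | with_reducible apply IntF.app | with_reducible apply IntF.inl | with_reducible apply IntF.inr | with_reducible_and_instances apply IntF.mul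 | with_reducible_and_instances apply IntF.inv | with_reducible_and_instances apply IntF.add | with_reducible_and_instances apply IntF.sub | with_reducible_and_instances apply IntF.neg | with_reducible_and_instances apply IntF.smul | with_reducible apply Int.fin | with_reducible apply IntF.sep | with_reducible apply IntF.lam | with_reducible apply IntF.insert | with_reducible apply IntF.singleton | with_reducible apply IntF.union | with_reducible apply IntF.iimage | with_reducible apply IntF.ite | with_reducible apply IntF.the | with_reducible apply IntF.irec | with_reducible apply IntF.succ | with_reducible apply IntF.val | with_reducible apply IntF.mk | (with_reducible refine Int.comp ?_ ?_; assumption) | (with_reducible refine Int.comp₂ ?_ ?_ ?_; assumption) | (with_reducible refine Int.comp₃ ?_ ?_ ?_ ?_; assumption) | (with_reducible refine Int.comp₄ ?_ ?_ ?_ ?_ ?_; assumption) | (with_reducible refine IntF.comp ?_ ?_; assumption) | (with_reducible refine IntF.comp₂ ?_ ?_ ?_; assumption) | (with_reducible refine IntF.comp₃ ?_ ?_ ?_ ?_; assumption) | with_reducible apply IntF.pair)))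
      fun _ _ => rfl

/-- The atoms outside of a finite set. -/
theorem exists_Y (E : FS M (INat M)) : ∃ Y : (NN (SS (SYM M (INat M))) hG), ∀ w, Helper672.Plain.Mem w Y ↔ ∃ x, ¬ x ∈ E.1 ∧ w = (cc (SYM M (INat M)) hG) x :=
  EF.set hG (ef_cc hG) (Y := fun x => ¬ x ∈ E.1) (by (repeat' (first | with_reducible exact IntF.id | with_reducible exact IntF.fst' | with_reducible exact IntF.snd' | with_reducible exact IntF.const _ | with_reducible exact Int.const _ | assumption | with_reducible apply Int.and | with_reducible apply Int.or | with_reducible apply Int.not | with_reducible apply Int.imp | with_reducible apply Int.iff | with_reducible apply Int.ne | with_reducible apply Int.eq | with_reducible apply Int.mem | with_reducible apply Int.subset | with_reducible apply Int.ltN | with_reducible apply Int.leN | with_reducible_and_instances apply Int.le | with_reducible_and_instances apply Int.lt | with_reducible apply Int.all | with_reducible apply Int.ex | with_reducible apply IntF.fst | with_reducible apply IntF.snd | with_reducible apply IntF.app | with_reducible apply IntF.inl | with_reducible apply IntF.inr | with_reducible_and_instances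 apply IntF.mul | with_reducible_and_instances apply IntF.inv | with_reducible_and_instances apply IntF.add | with_reducible_and_instances apply IntF.sub | with_reducible_and_instances apply IntF.neg | with_reducible_and_instances apply IntF.smul | with_reducible apply Int.fin | with_reducible apply IntF.sep | with_reducible apply IntF.lam | with_reducible apply IntF.insert | with_reducible apply IntF.singleton | with_reducible apply IntF.union | with_reducible apply IntF.iimage | with_reducible apply IntF.ite | with_reducible apply IntF.the | with_reducible apply IntF.irec | with_reducible apply IntF.succ | with_reducible apply IntF.val | with_reducible apply IntF.mk | (with_reducible refine Int.comp ?_ ?_; assumption) | (with_reducible refine Int.comp₂ ?_ ?_ ?_; assumption) | (with_reducible refine Int.comp₃ ?_ ?_ ?_ ?_; assumption) | (with_reducible refine Int.comp₄ ?_ ?_ ?_ ?_ ?_; assumption) | (with_reducible refine IntF.comp ?_ ?_; assumption) | (with_reducible refine IntF.comp₂ ?_ ?_ ?_; assumption) | (with_reducible refine IntF.comp₃ ?_ ?_ ?_ ?_; assumption) | with_reducible apply IntF.pair))) (E := E) fun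 g _ hgE c hc h => by
    apply hc
    have h1 : g.1.1 (g.1.1 c) = g.1.1 c := hgE _ h
    rwa [inj_ap g h1] at h

include hC in
/-- The natural numbers. -/
theorem natN {n : (NN (SS (SYM M (INat M))) hG)} (h : IsNat n) : ∃ m, n = (nn (SYM M (INat M)) hG) m := by
  letI := toL (NN (SS (SYM M (INat M))) hG)
  have h0 : @IsModel (NN (SS (SYM M (INat M))) hG) (toL (NN (SS (SYM M (INat M))) hG)) := isModel_of_zermelo (nn_zermelo hG)
  obtain ⟨n', hn'⟩ := nat_iff.1 h
  obtain ⟨m, hm⟩ := nnN_surj (Z := SYM M (INat M)) hG hC n'
  refine ⟨m, ?_⟩
  rw [← hn', ← hm]
  rfl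

include hC in
/-- It is infinite. -/
theorem not_finite {E : FS M (INat M)} {Y : (NN (SS (SYM M (INat M))) hG)} (hY : ∀ x, ¬ x ∈ E.1 → Helper672.Plain.Mem ((cc (SYM M (INat M)) hG) x) Y) :
    ¬ IsFinite Y := by
  rintro ⟨n, f, hn, ⟨⟨h1, h2⟩, h3⟩, -⟩
  obtain ⟨E', hE'⟩ := support hG f
  obtain ⟨F, hF⟩ := exists_un E E'
  obtain ⟨x, y, hx, hy, hxy⟩ := exists_out F
  rw [hF, not_or] at hx hy
  have hm : ∀ z, App f ((cc (SYM M (INat M)) hG) x) z → ∃ m, z = (nn (SYM M (INat M)) hG) m := by
    intro z hz
    obtain ⟨q, h4, h5⟩ := hz
    obtain ⟨x', y', h6, h7, h8⟩ := h1 q h5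
    obtain ⟨-, rfl⟩ := op_inj (((ordN hG).1 h4).symm.trans ((ordN hG).1 h8))
    obtain ⟨n', rfl⟩ := natN hG hC hn
    obtain ⟨m, -, h9⟩ := (mem_nn hG).1 h7
    exact ⟨m, h9⟩
  obtain ⟨z, hz, -⟩ := h2 _ (hY x hx.1)
  obtain ⟨m, rfl⟩ := hm z hz
  obtain ⟨g, hg, hg', h4⟩ := exists_swap (M := M) x y
  have h5 := hE' _ _ _ _ (ef_pn hG) g trivial (fun z hz => h4 z (fun h => hx.2 (h ▸ hz))
    fun h => hy.2 (h ▸ hz)) (x, m) ((appNN hG).1 hz)
  change Helper672.Plain.Mem (op ((cc (SYM M (INat M)) hG) (g.1.1 x)) ((nn (SYM M (INat M)) hG) m)) f at h5
  rw [hg] at h5
  exact hxy ((cc_inj hG).1 (h3 _ _ _ hz ((appNN hG).2 h5)))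

include hC in
/-- Ramsey's theorem for pairs. -/
theorem rt (n : (NN (SS (SYM M (INat M))) hG)) (hn : IsNat n) : RT2 n (AA (SYM M (INat M)) hG) := by
  intro P c hP hc
  obtain ⟨f, hf⟩ := hc
  obtain ⟨E, hE⟩ := support hG f
  obtain ⟨x₀, y₀, hx₀, hy₀, hxy₀⟩ := exists_out E
  obtain ⟨Y, hY⟩ := exists_Y hG E
  have hmP : ∀ x y : INat M, x ≠ y → Helper672.Plain.Mem (up ((cc (SYM M (INat M)) hG) x) ((cc (SYM M (INat M)) hG) y)) P := fun x y hxy =>
    (hP _).2 ⟨(cc (SYM M (INat M)) hG) x, (cc (SYM M (INat M)) hG) y, (mem_AA hG).2 ⟨x, rfl⟩, (mem_AA hG).2 ⟨y, rfl⟩,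
      fun h => hxy ((cc_inj hG).1 h), fun z => mem_upN hG⟩
  refine ⟨Y, fun z hz => ?_, not_finite hG hC (E := E) fun x hx => (hY _).2 ⟨x, hx, rfl⟩,
    c ⟨_, hmP _ _ hxy₀⟩, fun p hp => ?_⟩
  · obtain ⟨x, -, rfl⟩ := (hY _).1 hz
    exact (mem_AA hG).2 ⟨x, rfl⟩
  obtain ⟨a, b, ha, hb, hab, h1⟩ := (hP _).1 p.2
  obtain ⟨x, hx, rfl⟩ := (hY _).1 (hp a ((h1 a).2 (Or.inl rfl)))
  obtain ⟨y, hy, rfl⟩ := (hY _).1 (hp b ((h1 b).2 (Or.inr rfl)))
  have hxy : x ≠ y := fun h => hab (h ▸ rfl)
  have h2 : p.1 = up ((cc (SYM M (INat M)) hG) x) ((cc (SYM M (INat M)) hG) y) := nn_ext hG fun z => (h1 z).trans (mem_upN hG).symm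
  obtain ⟨g, hgE, hgx, hgy⟩ := exists_mv hx₀ hy₀ hx hy hxy₀ hxy
  set k := c ⟨_, hmP _ _ hxy₀⟩ with hk
  obtain ⟨j, hj⟩ : ∃ j, k.1 = (nn (SYM M (INat M)) hG) j := by
    obtain ⟨n', hn'⟩ := natN hG hC hn
    have h3 : Helper672.Plain.Mem k.1 ((nn (SYM M (INat M)) hG) n') := hn' ▸ k.2
    obtain ⟨m, -, h4⟩ := (mem_nn hG).1 h3
    exact ⟨m, h4⟩
  obtain ⟨q, hq, hq'⟩ := (hf _ _).1 hk.symm
  have h3 : q = op (up ((cc (SYM M (INat M)) hG) x₀) ((cc (SYM M (INat M)) hG) y₀)) ((nn (SYM M (INat M)) hG) j) := by
    rw [← hj]
    exact (ordN hG).1 hq
  rw [h3] at hq'
  have h5 := hE _ _ _ _ (ef_ppn hG) g trivial hgE ((x₀, y₀), j) hq'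
  change Helper672.Plain.Mem (op (up ((cc (SYM M (INat M)) hG) (g.1.1 x₀)) ((cc (SYM M (INat M)) hG) (g.1.1 y₀))) ((nn (SYM M (INat M)) hG) j)) f at h5
  rw [hgx, hgy, ← h2, ← hj] at h5
  exact (hf _ _).2 ⟨_, (ordN hG).2 rfl, h5⟩

include hC in
/-- The canonical Ramsey theorem fails. -/
theorem not_crt : ¬ CRT (AA (SYM M (INat M)) hG) := by
  intro H
  have h1 : EF (SYM M (INat M)) hG
      (fun (g : IPerm M (INat M)) (q : INat M × INat M) => (g.1.1 q.1, g.1.1 q.2))
      (fun q => up ((cc (SYM M (INat M)) hG) q.1) ((cc (SYM M (INat M)) hG) q.2)) := by
    refine ef_up hG (fun g b => Prod.ext (g.2.2 _) (g.2.2 _)) ?_ ?_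
    · exact EF.comp hG (ef_cc hG) (φ := fun q : INat M × INat M => q.1) (by (repeat' (first | with_reducible exact IntF.id | with_reducible exact IntF.fst' | with_reducible exact IntF.snd' | with_reducible exact IntF.const _ | with_reducible exact Int.const _ | assumption | with_reducible apply Int.and | with_reducible apply Int.or | with_reducible apply Int.not | with_reducible apply Int.imp | with_reducible apply Int.iff | with_reducible apply Int.ne | with_reducible apply Int.eq | with_reducible apply Int.mem | with_reducible apply Int.subset | with_reducible apply Int.ltN | with_reducible apply Int.leN | with_reducible_and_instances apply Int.le | with_reducible_and_instances apply Int.lt | with_reducible apply Int.all | with_reducible apply Int.ex | with_reducible apply IntF.fst | with_reducible apply IntF.snd | with_reducible apply IntF.app | with_reducible apply IntF.inl | with_reducible apply IntF.inr | with_reducible_and_instances apply IntF.mul | with_reducible_and_instances apply IntF.inv | with_reducible_and_instances apply IntF.add | with_reducible_and_instances apply IntF.sub | with_reducible_and_instances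 apply IntF.neg | with_reducible_and_instances apply IntF.smul | with_reducible apply Int.fin | with_reducible apply IntF.sep | with_reducible apply IntF.lam | with_reducible apply IntF.insert | with_reducible apply IntF.singleton | with_reducible apply IntF.union | with_reducible apply IntF.iimage | with_reducible apply IntF.ite | with_reducible apply IntF.the | with_reducible apply IntF.irec | with_reducible apply IntF.succ | with_reducible apply IntF.val | with_reducible apply IntF.mk | (with_reducible refine Int.comp ?_ ?_; assumption) | (with_reducible refine Int.comp₂ ?_ ?_ ?_; assumption) | (with_reducible refine Int.comp₃ ?_ ?_ ?_ ?_; assumption) | (with_reducible refine Int.comp₄ ?_ ?_ ?_ ?_ ?_; assumption) | (with_reducible refine IntF.comp ?_ ?_; assumption) | (with_reducible refine IntF.comp₂ ?_ ?_ ?_; assumption) | (with_reducible refine IntF.comp₃ ?_ ?_ ?_ ?_; assumption) | with_reducible apply IntF.pair)))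
        fun _ _ => rfl
    · exact EF.comp hG (ef_cc hG) (φ := fun q : INat M × INat M => q.2) (by (repeat' (first | with_reducible exact IntF.id | with_reducible exact IntF.fst' | with_reducible exact IntF.snd' | with_reducible exact IntF.const _ | with_reducible exact Int.const _ | assumption | with_reducible apply Int.and | with_reducible apply Int.or | with_reducible apply Int.not | with_reducible apply Int.imp | with_reducible apply Int.iff | with_reducible apply Int.ne | with_reducible apply Int.eq | with_reducible apply Int.mem | with_reducible apply Int.subset | with_reducible apply Int.ltN | with_reducible apply Int.leN | with_reducible_and_instances apply Int.le | with_reducible_and_instances apply Int.lt | with_reducible apply Int.all | with_reducible apply Int.ex | with_reducible apply IntF.fst | with_reducible apply IntF.snd | with_reducible apply IntF.app | with_reducible apply IntF.inl | with_reducible apply IntF.inr | with_reducible_and_instances apply IntF.mul | with_reducible_and_instances apply IntF.inv | with_reducible_and_instances apply IntF.add | with_reducible_and_instances apply IntF.sub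 | with_reducible_and_instances apply IntF.neg | with_reducible_and_instances apply IntF.smul | with_reducible apply Int.fin | with_reducible apply IntF.sep | with_reducible apply IntF.lam | with_reducible apply IntF.insert | with_reducible apply IntF.singleton | with_reducible apply IntF.union | with_reducible apply IntF.iimage | with_reducible apply IntF.ite | with_reducible apply IntF.the | with_reducible apply IntF.irec | with_reducible apply IntF.succ | with_reducible apply IntF.val | with_reducible apply IntF.mk | (with_reducible refine Int.comp ?_ ?_; assumption) | (with_reducible refine Int.comp₂ ?_ ?_ ?_; assumption) | (with_reducible refine Int.comp₃ ?_ ?_ ?_ ?_; assumption) | (with_reducible refine Int.comp₄ ?_ ?_ ?_ ?_ ?_; assumption) | (with_reducible refine IntF.comp ?_ ?_; assumption) | (with_reducible refine IntF.comp₂ ?_ ?_ ?_; assumption) | (with_reducible refine IntF.comp₃ ?_ ?_ ?_ ?_; assumption) | with_reducible apply IntF.pair)))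
        fun _ _ => rfl
  obtain ⟨P, hP⟩ := EF.set hG h1 (Y := fun q => q.1 ≠ q.2) (by (repeat' (first | with_reducible exact IntF.id | with_reducible exact IntF.fst' | with_reducible exact IntF.snd' | with_reducible exact IntF.const _ | with_reducible exact Int.const _ | assumption | with_reducible apply Int.and | with_reducible apply Int.or | with_reducible apply Int.not | with_reducible apply Int.imp | with_reducible apply Int.iff | with_reducible apply Int.ne | with_reducible apply Int.eq | with_reducible apply Int.mem | with_reducible apply Int.subset | with_reducible apply Int.ltN | with_reducible apply Int.leN | with_reducible_and_instances apply Int.le | with_reducible_and_instances apply Int.lt | with_reducible apply Int.all | with_reducible apply Int.ex | with_reducible apply IntF.fst | with_reducible apply IntF.snd | with_reducible apply IntF.app | with_reducible apply IntF.inl | with_reducible apply IntF.inr | with_reducible_and_instances apply IntF.mul | with_reducible_and_instances apply IntF.inv | with_reducible_and_instances apply IntF.add | with_reducible_and_instances apply IntF.sub | with_reducible_and_instances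 apply IntF.neg | with_reducible_and_instances apply IntF.smul | with_reducible apply Int.fin | with_reducible apply IntF.sep | with_reducible apply IntF.lam | with_reducible apply IntF.insert | with_reducible apply IntF.singleton | with_reducible apply IntF.union | with_reducible apply IntF.iimage | with_reducible apply IntF.ite | with_reducible apply IntF.the | with_reducible apply IntF.irec | with_reducible apply IntF.succ | with_reducible apply IntF.val | with_reducible apply IntF.mk | (with_reducible refine Int.comp ?_ ?_; assumption) | (with_reducible refine Int.comp₂ ?_ ?_ ?_; assumption) | (with_reducible refine Int.comp₃ ?_ ?_ ?_ ?_; assumption) | (with_reducible refine Int.comp₄ ?_ ?_ ?_ ?_ ?_; assumption) | (with_reducible refine IntF.comp ?_ ?_; assumption) | (with_reducible refine IntF.comp₂ ?_ ?_ ?_; assumption) | (with_reducible refine IntF.comp₃ ?_ ?_ ?_ ?_; assumption) | with_reducible apply IntF.pair))) (E := fs0 M (INat M))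
    fun g _ _ c hc h => hc (inj_ap g h)
  have hP' : IsPairSet P (AA (SYM M (INat M)) hG) := by
    intro z
    rw [hP]
    constructor
    · rintro ⟨⟨x, y⟩, h2, rfl⟩
      exact ⟨(cc (SYM M (INat M)) hG) x, (cc (SYM M (INat M)) hG) y, (mem_AA hG).2 ⟨x, rfl⟩, (mem_AA hG).2 ⟨y, rfl⟩,
        fun h => h2 ((cc_inj hG).1 h), fun z => mem_upN hG⟩
    · rintro ⟨a, b, ha, hb, hab, h2⟩
      obtain ⟨x, rfl⟩ := (mem_AA hG).1 ha
      obtain ⟨y, rfl⟩ := (mem_AA hG).1 hb
      exact ⟨(x, y), fun h => hab (by rw [show x = y from h]),
        nn_ext hG fun z => (h2 z).trans (mem_upN hG).symm⟩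
  have hid : IsMap (fun p : Helper672.Plain.El P => p) := by
    letI := toL (NN (SS (SYM M (INat M))) hG)
    letI := fun x : (NN (SS (SYM M (INat M))) hG) => instPEl (N := (NN (SS (SYM M (INat M))) hG)) x
    have h0 : @IsModel (NN (SS (SYM M (INat M))) hG) (toL (NN (SS (SYM M (INat M))) hG)) := isModel_of_zermelo (nn_zermelo hG)
    exact TM.isMap_iff.2 IntF.id
  obtain ⟨Y, R, hY, hfin, hR, -⟩ := H P P (fun p => p) hP' hid
  obtain ⟨E₁, hE₁⟩ := support hG Y
  obtain ⟨E₂, hE₂⟩ := support hG R
  obtain ⟨E, hE⟩ := exists_un E₁ E₂
  by_cases h : ∃ x, ¬ x ∈ E.1 ∧ Helper672.Plain.Mem ((cc (SYM M (INat M)) hG) x) Y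
  · obtain ⟨x, hx, hxY⟩ := h
    obtain ⟨y, y', hy, hy', hyy⟩ := exists_out E
    obtain ⟨y, hy, hxy⟩ : ∃ y, ¬ y ∈ E.1 ∧ x ≠ y := by
      by_cases h2 : x = y
      · exact ⟨y', hy', fun h3 => hyy (h2.symm.trans h3)⟩
      · exact ⟨y, hy, h2⟩
    rw [hE, not_or] at hx hy
    obtain ⟨g, hg, hg', h4⟩ := exists_swap (M := M) x y
    have hyY := hE₁ _ _ _ _ (ef_cc hG) g trivial (fun z hz => h4 z (fun h => hx.1 (h ▸ hz))
      fun h => hy.1 (h ▸ hz)) x hxY
    change Helper672.Plain.Mem ((cc (SYM M (INat M)) hG) (g.1.1 x)) Y at hyY
    rw [hg] at hyY
    have h5 : ∀ a b, Lt R ((cc (SYM M (INat M)) hG) a) ((cc (SYM M (INat M)) hG) b) → Lt R ((cc (SYM M (INat M)) hG) (g.1.1 a)) ((cc (SYM M (INat M)) hG) (g.1.1 b)) := by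
      rintro a b ⟨p, hp, hp'⟩
      rw [(ordN hG).1 hp] at hp'
      exact ⟨_, (ordN hG).2 rfl, hE₂ _ _ _ _ (ef_pp hG) g trivial
        (fun z hz => h4 z (fun h => hx.2 (h ▸ hz)) fun h => hy.2 (h ▸ hz)) (a, b) hp'⟩
    have hne : (cc (SYM M (INat M)) hG) x ≠ (cc (SYM M (INat M)) hG) y := fun h => hxy ((cc_inj hG).1 h)
    rcases hR.total _ _ hxY hyY hne with h6 | h6
    · have h7 := h5 _ _ h6
      rw [hg, hg'] at h7
      exact hR.irrefl _ hxY (hR.trans _ _ _ hxY hyY hxY h6 h7)
    · have h7 := h5 _ _ h6
      rw [hg, hg'] at h7
      exact hR.irrefl _ hxY (hR.trans _ _ _ hxY hyY hxY h7 h6)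
  · apply hfin
    obtain ⟨s, hs, hs'⟩ := exists_fin (Z := SYM M (INat M)) hG hC E
    have hp : Int (NN (SS (SYM M (INat M))) hG) (fun a : El (AA (SYM M (INat M)) hG) => Mem a.1 Y) :=
      Int.of_D (S := fun v => Mem (v 0) Y) (D.memf (DF.var _) (DF.const _)) fun _ => Iff.rfl
    letI := toL (NN (SS (SYM M (INat M))) hG)
    have h0 : @IsModel (NN (SS (SYM M (INat M))) hG) (toL (NN (SS (SYM M (INat M))) hG)) := isModel_of_zermelo (nn_zermelo hG)
    refine finite_of_finP (N := (NN (SS (SYM M (INat M))) hG)) (α := El (AA (SYM M (INat M)) hG)) (p := fun a => Mem a.1 Y) hp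
      (fun z => ⟨fun hz => ⟨⟨z, hY z hz⟩, hz, rfl⟩, ?_⟩) ⟨s, hs, fun a ha => ?_⟩
    · rintro ⟨a, ha, rfl⟩
      exact ha
    · obtain ⟨x, rfl⟩ := cA_surj (Z := SYM M (INat M)) hG a
      rw [hs']
      by_contra h2
      exact h ⟨x, h2, ha⟩

end ext

theorem exists_am' (M : Type u) [L.Structure M] [IsModel M] [Countable M] (hC : CollL M) :
    ∃ (N : Type u) (_ : LSet.Structure N), ZF N ∧ ∃ X : N, ¬ CRT X ∧ ∀ n, IsNat n → RT2 n X := by
  have p₀ : Co M (INat M) := ⟨∅, fun i k d d' h => absurd h (by simp), IFin.empty⟩
  obtain ⟨G, hG⟩ := H635.exists_gen (M := M) p₀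
  exact ⟨NN (SS (SYM M (INat M))) hG, inferInstance, nn_zf hG hC, AA (SYM M (INat M)) hG,
    not_crt hG hC, fun n hn => rt hG hC n hn⟩

section

attribute [local instance] toL

theorem exists_am_c (M : Type u) [LSet.Structure M] [Countable M] (h : ZF M) :
    ∃ (N : Type u) (_ : LSet.Structure N), ZF N ∧ ∃ X : N, ¬ CRT X ∧ ∀ n, IsNat n → RT2 n X := by
  have hM : IsModel M := isModel_of_zermelo h.toZermelo
  exact exists_am' M (coll_of_zf h)

end

theorem exists_am (h : ∃ (M : Type u) (_ : LSet.Structure M), ZF M) :
    ∃ (N : Type u) (_ : LSet.Structure N), ZF N ∧ ∃ X : N, ¬ CRT X ∧ ∀ n, IsNat n → RT2 n X := by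
  obtain ⟨M, i, hM⟩ := h
  obtain ⟨M₀, h1, h2⟩ := exists_countable_sub M hM
  exact exists_am_c M₀ h2

end Pool.Agent.Q301.AM
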